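import Pool.Agent.Q68.GH.Ten

/-! Lemma jobs GH1 and GH2 for helper207: every decomposition is polarised, orbits of Hodge classes are finite. -/

set_option autoImplicit false
set_option linter.unusedSectionVars false

open Matrix Finset Module

namespace Q68.GH

open Q207.HT (lieA)
open Q207.GH (trl Pol)

/-- a real positive sesquilinear form has an orthonormal basis -/
theorem gs {V : Type} [AddCommGroup V] [Module ℂ V] [FiniteDimensional ℂ V] (B : V →ₗ[ℂ] V →ₛₗ[starRingEnd ℂ] ℂ)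
    (hB : ∀ v, v ≠ 0 → ∃ x : ℝ, 0 < x ∧ B v v = x) :
    ∃ b : Basis (Fin (finrank ℂ V)) ℂ V, ∀ i j, B (b i) (b j) = if i = j then 1 else 0 := by
  have hreal : ∀ v, (B v v).im = 0 := by
    intro v
    by_cases h : v = 0
    · rw [h]
      simp
    · obtain ⟨x, _, hx⟩ := hB v h
      rw [hx]
      exact Complex.ofReal_im x
  have hre : ∀ v, 0 ≤ (B v v).re := by
    intro v
    by_cases h : v = 0
    · rw [h]
      simp
    · obtain ⟨x, hx0, hx⟩ := hB v h
      rw [hx, Complex.ofReal_re]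
      exact hx0.le
  have hsymm : ∀ x y, (starRingEnd ℂ) (B x y) = B y x := by
    intro x y
    have h1 := hreal (x + y)
    have h2 := hreal (x + Complex.I • y)
    have h3 := hreal x
    have h4 := hreal y
    simp only [map_add, LinearMap.add_apply, map_smulₛₗ, LinearMap.smul_apply, Complex.add_im, smul_eq_mul,
      Complex.conj_I, RingHom.id_apply] at h1 h2
    apply Complex.ext
    · rw [Complex.conj_re]
      simp only [Complex.mul_im, Complex.mul_re, Complex.neg_re, Complex.neg_im, Complex.I_re, Complex.I_im,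
        Complex.add_re, Complex.add_im] at h2
      linarith
    · rw [Complex.conj_im]
      linarith
  let core : InnerProductSpace.Core ℂ V :=
    { inner := fun x y => B y x
      conj_inner_symm := fun x y => hsymm x y
      re_inner_nonneg := fun x => hre x
      add_left := fun x y z => by
        change B z (x + y) = B z x + B z y
        exact map_add _ _ _
      smul_left := fun x y r => by
        change B y (r • x) = (starRingEnd ℂ) r * B y x
        rw [map_smulₛₗ, smul_eq_mul]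
      definite := fun x hx => by
        by_contra h
        obtain ⟨t, ht, ht2⟩ := hB x h
        change B x x = 0 at hx
        rw [hx] at ht2
        have : t = 0 := by exact_mod_cast ht2.symm
        linarith }
  let _ : NormedAddCommGroup V := core.toNormedAddCommGroup
  let _ : InnerProductSpace ℂ V := InnerProductSpace.ofCore core.toCore
  let b := stdOrthonormalBasis ℂ V
  refine ⟨b.toBasis, fun i j => ?_⟩
  have h := (orthonormal_iff_ite.mp b.orthonormal) j i
  rw [OrthonormalBasis.coe_toBasis]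
  change B (b i) (b j) = _ at h
  rw [h]
  by_cases hij : i = j
  · rw [if_pos hij, if_pos hij.symm]
  · rw [if_neg hij, if_neg (Ne.symm hij)]

variable {I : Type} [Fintype I] [DecidableEq I]

/-- a basis of a decomposition -/
theorem coll (H : ℤ → Submodule ℂ (I → ℂ)) (hH : DirectSum.IsInternal H)
    (b : ∀ p, Basis (Fin (finrank ℂ (H p))) ℂ (H p)) :
    ∃ (lev : I → ℤ) (Z : Matrix I I ℂ), IsUnit Z.det ∧ (∀ a, Z a ∈ H (lev a)) ∧
      (∀ p, ∀ v ∈ H p, ∃ c : I → ℂ, v = c ᵥ* Z ∧ ∀ a, lev a ≠ p → c a = 0) ∧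
      ∀ B : ℤ → (I → ℂ) → (I → ℂ) → ℂ, (∀ p i j, B p (b p i) (b p j) = if i = j then 1 else 0) →
        ∀ a a', lev a = lev a' → B (lev a) (Z a) (Z a') = if a = a' then 1 else 0 := by
  classical
  let c := hH.collectedBasis b
  let e : I ≃ Σ p, Fin (finrank ℂ (H p)) := (Pi.basisFun ℂ I).indexEquiv c
  let d := c.reindex e.symm
  have hd : ∀ a, d a = (b (e a).1 (e a).2 : I → ℂ) := by
    intro a
    rw [Basis.reindex_apply, Equiv.symm_symm, DirectSum.IsInternal.collectedBasis_coe]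
  refine ⟨fun a => (e a).1, Matrix.of fun a => d a, ?_, ?_, ?_, ?_⟩
  · have h1 := Matrix.linearIndependent_rows_iff_isUnit (A := (Matrix.of fun a => (d a : I → ℂ)))
    have h2 := h1.mp d.linearIndependent
    rwa [Matrix.isUnit_iff_isUnit_det] at h2
  · intro a
    change d a ∈ _
    rw [hd]
    exact (b (e a).1 (e a).2).2
  · intro p v hv
    refine ⟨fun a => d.repr v a, ?_, ?_⟩
    · have h := d.sum_repr v
      conv_lhs => rw [← h]
      funext i
      rw [Finset.sum_apply]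
      exact Finset.sum_congr rfl fun a _ => rfl
    · intro a ha
      change d.repr v a = 0
      rw [Basis.repr_reindex_apply, Equiv.symm_symm]
      exact hH.collectedBasis_repr_of_mem_ne b (Ne.symm ha) hv
  · intro B hB a a' haa
    change B (e a).1 (d a) (d a') = _
    rw [hd, hd]
    have h1 : a = a' ↔ e a = e a' := e.injective.eq_iff.symm
    simp only [h1]
    change (e a).1 = (e a').1 at haa
    obtain ⟨⟨p, i⟩, hx⟩ : ∃ x, x = e a := ⟨_, rfl⟩
    obtain ⟨⟨p', i'⟩, hx'⟩ : ∃ x, x = e a' := ⟨_, rfl⟩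
    rw [← hx, ← hx'] at haa ⊢
    change p = p' at haa
    subst haa
    rw [hB]
    by_cases hii : i = i'
    · rw [if_pos hii, if_pos (by rw [hii])]
    · rw [if_neg hii, if_neg]
      intro h
      exact hii (by simpa using h)

/-- the form of a matrix -/
noncomputable def fm (S : Matrix I I ℂ) (c : ℂ) (V : Submodule ℂ (I → ℂ)) : V →ₗ[ℂ] V →ₛₗ[starRingEnd ℂ] ℂ :=
  LinearMap.mk₂'ₛₗ (RingHom.id ℂ) (starRingEnd ℂ) (fun v w => c * ((v : I → ℂ) ⬝ᵥ (S *ᵥ star (w : I → ℂ))))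
    (fun v v' w => by rw [Submodule.coe_add, add_dotProduct, mul_add])
    (fun r v w => by
      rw [Submodule.coe_smul, smul_dotProduct, RingHom.id_apply, smul_eq_mul, smul_eq_mul]
      ring)
    (fun v w w' => by rw [Submodule.coe_add, star_add, mulVec_add, dotProduct_add, mul_add])
    (fun r v w => by
      rw [Submodule.coe_smul, star_smul, mulVec_smul, dotProduct_smul, smul_eq_mul, smul_eq_mul]
      change c * (star r * _) = star r * _
      ring)

lemma fm_apply (S : Matrix I I ℂ) (c : ℂ) (V : Submodule ℂ (I → ℂ)) (v w : V) :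
    fm S c V v w = c * ((v : I → ℂ) ⬝ᵥ (S *ᵥ star (w : I → ℂ))) := rfl

/-- the matrix of the form in a basis -/
lemma gram (S Z : Matrix I I ℂ) (a a' : I) : (Z * S * Zᴴ) a a' = Z a ⬝ᵥ (S *ᵥ star (Z a')) := by
  rw [Matrix.mul_assoc, Matrix.mul_apply]
  refine Finset.sum_congr rfl fun i _ => ?_
  rw [Matrix.mul_apply]
  rfl

/-- GH2 -/
theorem form : Q207.GH.S_Form := by
  intro I _ _ H hH
  obtain ⟨lev, Z, hZ, hZH, hc, -⟩ := coll H hH fun p => finBasis ℂ (H p)
  have hZu := Matrix.nonsing_inv_mul Z hZ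
  have hZu2 := Matrix.mul_nonsing_inv Z hZ
  set D : Matrix I I ℂ := Matrix.diagonal fun a => (Complex.I ^ (lev a))⁻¹ with hD
  have hS : Z * (Z⁻¹ * D * (Z⁻¹)ᴴ) * Zᴴ = D := by
    rw [← Matrix.mul_assoc, ← Matrix.mul_assoc, hZu2, Matrix.one_mul, Matrix.mul_assoc,
      ← Matrix.conjTranspose_mul, hZu2, Matrix.conjTranspose_one, Matrix.mul_one]
  have hval : ∀ c c' : I → ℂ, (c ᵥ* Z) ⬝ᵥ ((Z⁻¹ * D * (Z⁻¹)ᴴ) *ᵥ star (c' ᵥ* Z)) =
      ∑ a, c a * star (c' a) * (Complex.I ^ (lev a))⁻¹ := by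
    intro c c'
    rw [Matrix.star_vecMul, Matrix.mulVec_mulVec, ← Matrix.dotProduct_mulVec, Matrix.mulVec_mulVec,
      ← Matrix.mul_assoc, hS]
    refine Finset.sum_congr rfl fun a _ => ?_
    rw [hD, Matrix.mulVec_diagonal]
    change c a * (_ * star (c' a)) = _
    ring
  refine ⟨Z⁻¹ * D * (Z⁻¹)ᴴ, ?_, ?_⟩
  · intro p q hpq v hv w hw
    obtain ⟨c, rfl, hc1⟩ := hc p v hv
    obtain ⟨c', rfl, hc2⟩ := hc q w hw
    rw [hval]
    refine Finset.sum_eq_zero fun a _ => ?_
    by_cases h : lev a = p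
    · rw [hc2 a (by rw [h]; exact hpq), star_zero, mul_zero, zero_mul]
    · rw [hc1 a h, zero_mul, zero_mul]
  · intro p v hv hv0
    obtain ⟨c, rfl, hc1⟩ := hc p v hv
    rw [hval]
    refine ⟨∑ a, Complex.normSq (c a), ?_, ?_⟩
    · have hc0 : c ≠ 0 := by
        rintro rfl
        apply hv0
        rw [Matrix.zero_vecMul]
      obtain ⟨a, ha⟩ := Function.ne_iff.mp hc0
      exact Finset.sum_pos' (fun i _ => Complex.normSq_nonneg _) ⟨a, Finset.mem_univ _,
        Complex.normSq_pos.mpr ha⟩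
    · rw [Finset.mul_sum]
      push_cast
      refine Finset.sum_congr rfl fun a _ => ?_
      by_cases h : lev a = p
      · rw [h, Complex.normSq_eq_conj_mul_self]
        change Complex.I ^ p * (c a * (starRingEnd ℂ) (c a) * (Complex.I ^ p)⁻¹) = _
        have : Complex.I ^ p ≠ 0 := zpow_ne_zero _ Complex.I_ne_zero
        field_simp
      · rw [hc1 a h]
        simp

/-- the action and ring homomorphisms -/
lemma trl_map {R R' κ : Type} [CommRing R] [CommRing R'] [Fintype κ] [DecidableEq κ] (f : R →+* R')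
    (g : Matrix I I R) (u : (κ → I) → R) (p : κ → I) :
    f (trl g u p) = trl (g.map f) (fun r => f (u r)) p := by
  simp only [trl_apply, map_sum, map_mul, map_prod, Matrix.map_apply]

/-- the value of the form on a tensor -/
noncomputable def val {q : ℕ} (S : Matrix I I ℂ) (x : (Fin q → I) → ℂ) : ℂ := ∑ p, x p * trl S (star x) p

lemma val_trl {q : ℕ} (S g : Matrix I I ℂ) (x : (Fin q → I) → ℂ) :
    val S (trl g x) = ∑ p, x p * trl (gᵀ * S * (gᴴ)ᵀ) (star x) p := by
  rw [val, trl_adj, star_trl, trl_mul, trl_mul, Matrix.mul_assoc]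

/-- the value of the form on a Hodge class -/
lemma val_hodge {q : ℕ} {S Φ Z : Matrix I I ℂ} {lev : I → ℤ} (hZ : IsUnit Z.det)
    (hS : Z * S * Zᴴ = Matrix.diagonal fun a => (Complex.I ^ (lev a))⁻¹)
    (hΦ : Z * Φ = Matrix.diagonal (fun a => (lev a : ℂ)) * Z) (x : (Fin q → I) → ℂ) (hx : lieA Φᵀ x = 0) :
    ∃ y : (Fin q → I) → ℂ, x = trl Zᵀ y ∧ val S x = ((∑ p, Complex.normSq (y p) : ℝ) : ℂ) := by
  have hZt : IsUnit (Zᵀ).det := by rwa [Matrix.det_transpose]
  have e1 := Matrix.mul_nonsing_inv _ hZt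
  have e2 := Matrix.nonsing_inv_mul _ hZt
  refine ⟨trl (Zᵀ)⁻¹ x, by rw [trl_mul, e1, trl_one], ?_⟩
  obtain ⟨y, hy⟩ : ∃ y, y = trl (Zᵀ)⁻¹ x := ⟨_, rfl⟩
  have hxy : x = trl Zᵀ y := by rw [hy, trl_mul, e1, trl_one]
  rw [← hy]
  have h1 : Φᵀ * Zᵀ = Zᵀ * Matrix.diagonal (fun a => (lev a : ℂ)) := by
    rw [← Matrix.transpose_mul, hΦ, Matrix.transpose_mul, Matrix.diagonal_transpose]
  have h2 : lieA (Matrix.diagonal (fun a => (lev a : ℂ))) y = 0 := by
    rw [hxy, lieA_trl _ _ _ h1] at hx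
    have h3 := congrArg (trl (Zᵀ)⁻¹) hx
    rw [trl_mul, e2, trl_one] at h3
    rw [h3]
    funext p
    rw [trl_apply]
    simp
  rw [hxy, val_trl, Matrix.transpose_transpose]
  have h4 : ((Zᵀ)ᴴ)ᵀ = Zᴴ := by
    ext i j
    rfl
  rw [h4, hS]
  push_cast
  refine Finset.sum_congr rfl fun p _ => ?_
  rw [trl_diag]
  have h5 := congrFun h2 p
  rw [lieA_diag] at h5
  change _ = (0 : ℂ) at h5
  rcases mul_eq_zero.mp h5 with h6 | h6
  · have h7 : ∑ l, lev (p l) = 0 := by
      have : ((∑ l, lev (p l) : ℤ) : ℂ) = 0 := by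
        push_cast
        exact h6
      exact_mod_cast this
    have h8 : ∏ l, (Complex.I ^ (lev (p l)))⁻¹ = 1 := by
      rw [Finset.prod_inv_distrib, inv_eq_one]
      have : ∏ l, Complex.I ^ (lev (p l)) = Complex.I ^ (∑ l, lev (p l)) := by
        have hg : ∀ t : Finset (Fin q), ∏ l ∈ t, Complex.I ^ (lev (p l)) = Complex.I ^ (∑ l ∈ t, lev (p l)) := by
          intro t
          induction t using Finset.induction_on with
          | empty => simp
          | insert a t ha ih => rw [Finset.prod_insert ha, Finset.sum_insert ha, ih, zpow_add₀ Complex.I_ne_zero]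
        exact hg univ
      rw [this, h7, zpow_zero]
    rw [h8, one_mul, Complex.normSq_eq_conj_mul_self]
    change y p * (starRingEnd ℂ) (y p) = _
    ring
  · rw [h6]
    simp

/-- GH1 -/
theorem orb : Q207.GH.S_Orb := by
  intro I _ _ H S Φ hH hΦ hP q u Γ hΓ1 hΓ2
  have hb : ∀ p, ∃ b : Basis (Fin (finrank ℂ (H p))) ℂ (H p), ∀ i j,
      Complex.I ^ p * ((b i : I → ℂ) ⬝ᵥ (S *ᵥ star (b j : I → ℂ))) = if i = j then 1 else 0 := by
    intro p
    obtain ⟨b, hb⟩ := gs (fm S (Complex.I ^ p) (H p)) fun v hv => by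
      obtain ⟨x, hx0, hx⟩ := hP.pos p v v.2 (by simpa using hv)
      exact ⟨x, hx0, hx⟩
    exact ⟨b, fun i j => hb i j⟩
  choose b hb using hb
  obtain ⟨lev, Z, hZ, hZH, -, hB⟩ := coll H hH b
  have hB2 := hB (fun p v w => Complex.I ^ p * (v ⬝ᵥ (S *ᵥ star w))) hb
  have hS : Z * S * Zᴴ = Matrix.diagonal fun a => (Complex.I ^ (lev a))⁻¹ := by
    ext a a'
    rw [gram]
    by_cases h : lev a = lev a'
    · have h1 := hB2 a a' h
      have h2 : Complex.I ^ (lev a) ≠ 0 := zpow_ne_zero _ Complex.I_ne_zero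
      by_cases haa : a = a'
      · subst haa
        rw [Matrix.diagonal_apply_eq]
        refine eq_inv_of_mul_eq_one_right ?_
        simpa using h1
      · rw [Matrix.diagonal_apply_ne _ haa]
        rw [if_neg haa] at h1
        exact (mul_eq_zero.mp h1).resolve_left h2
    · rw [hP.orth _ _ h _ (hZH a) _ (hZH a'), Matrix.diagonal_apply_ne]
      rintro rfl
      exact h rfl
  have hΦ2 : Z * Φ = Matrix.diagonal (fun a => (lev a : ℂ)) * Z := by
    ext a j
    rw [Matrix.diagonal_mul]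
    exact congrFun (hΦ _ _ (hZH a)) j
  -- the value is constant
  let U : (Fin q → I) → ℂ := fun p => ((u p : ℚ) : ℂ)
  have hcast : ∀ γ : Matrix I I ℤ, (fun p => ((trl (γ.map (Int.cast : ℤ → ℚ)) u p : ℚ) : ℂ)) =
      trl (γ.map (Int.cast : ℤ → ℂ)) U := by
    intro γ
    funext p
    have h1 := trl_map (Rat.castHom ℂ) (γ.map (Int.cast : ℤ → ℚ)) u p
    have h2 : (γ.map (Int.cast : ℤ → ℚ)).map (Rat.castHom ℂ) = γ.map (Int.cast : ℤ → ℂ) := by
      ext i j
      simp
    rw [h2] at h1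
    exact h1
  have hval : ∀ γ ∈ Γ, val S (trl (γ.map (Int.cast : ℤ → ℂ)) U) = val S U := by
    intro γ hγ
    rw [val_trl]
    have h1 : ((γ.map (Int.cast : ℤ → ℂ))ᴴ)ᵀ = γ.map (Int.cast : ℤ → ℂ) := by
      ext i j
      simp
    rw [h1, hΓ1 γ hγ]
    rfl
  -- the bound
  obtain ⟨c, hc⟩ : ∃ c : ℝ, c = (val S U).re := ⟨_, rfl⟩
  obtain ⟨M, hM⟩ : ∃ M : ℝ, M = ∑ p : Fin q → I, ∑ y : Fin q → I, ‖∏ l, Zᵀ (p l) (y l)‖ * (1 + c) := ⟨_, rfl⟩
  have hbd : ∀ γ ∈ Γ, ∀ p, ‖trl (γ.map (Int.cast : ℤ → ℂ)) U p‖ ≤ M := by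
    intro γ hγ p
    have h0 := hΓ2 γ hγ
    rw [hcast] at h0
    obtain ⟨y, hy1, hy2⟩ := val_hodge hZ hS hΦ2 _ h0
    rw [hval γ hγ] at hy2
    have hc1 : c = ∑ p, Complex.normSq (y p) := by rw [hc, hy2, Complex.ofReal_re]
    have hy3 : ∀ r, ‖y r‖ ≤ 1 + c := by
      intro r
      have h1 : Complex.normSq (y r) ≤ c := by
        rw [hc1]
        exact Finset.single_le_sum (fun i _ => Complex.normSq_nonneg _) (Finset.mem_univ r)
      rw [Complex.normSq_eq_norm_sq] at h1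
      nlinarith [norm_nonneg (y r), sq_nonneg (‖y r‖ - 1)]
    have hcn : 0 ≤ 1 + c := (norm_nonneg _).trans (hy3 p)
    rw [hy1, trl_apply, hM]
    calc ‖∑ y' : Fin q → I, (∏ l, Zᵀ (p l) (y' l)) * y y'‖ ≤ ∑ y' : Fin q → I, ‖∏ l, Zᵀ (p l) (y' l)‖ * (1 + c) := by
          refine (norm_sum_le _ _).trans (Finset.sum_le_sum fun r _ => ?_)
          rw [norm_mul]
          exact mul_le_mul_of_nonneg_left (hy3 r) (norm_nonneg _)
      _ ≤ _ := Finset.single_le_sum (f := fun p : Fin q → I => ∑ y' : Fin q → I, ‖∏ l, Zᵀ (p l) (y' l)‖ * (1 + c))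
          (fun i _ => Finset.sum_nonneg fun r _ => mul_nonneg (norm_nonneg _) hcn) (Finset.mem_univ p)
  -- the lattice
  obtain ⟨N, hN⟩ : ∃ N : ℕ, N = ∏ p, (u p).den := ⟨_, rfl⟩
  have hN0 : 0 < N := by
    rw [hN]
    exact Finset.prod_pos fun p _ => (u p).den_pos
  have huZ : ∀ p, ∃ n : ℤ, (n : ℚ) = N * u p := by
    intro p
    obtain ⟨k, hk⟩ : (u p).den ∣ N := by
      rw [hN]
      exact Finset.dvd_prod_of_mem _ (Finset.mem_univ p)
    refine ⟨k * (u p).num, ?_⟩
    have h1 : (u p) * (u p).den = (u p).num := Rat.mul_den_eq_num _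
    rw [hk]
    push_cast
    rw [← h1]
    ring
  choose uZ huZ using huZ
  obtain ⟨K, hK⟩ : ∃ K : ℤ, (N : ℝ) * M ≤ K := ⟨⌈(N : ℝ) * M⌉, Int.le_ceil _⟩
  have hfin : {n : (Fin q → I) → ℤ | ∀ p, n p ∈ Set.Icc (-K) K}.Finite :=
    Set.Finite.pi' fun p => Set.finite_Icc (-K) K
  refine (hfin.image fun (n : (Fin q → I) → ℤ) (p : Fin q → I) => (n p : ℚ) / N).subset ?_
  rintro x ⟨γ, hγ, rfl⟩
  have hNQ : (N : ℚ) ≠ 0 := by
    have := hN0.ne'
    exact_mod_cast this
  have hn : ∀ p, ((trl γ uZ p : ℤ) : ℚ) = N * trl (γ.map (Int.cast : ℤ → ℚ)) u p := by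
    intro p
    have h1 := trl_map (Int.castRingHom ℚ) γ uZ p
    change ((trl γ uZ p : ℤ) : ℚ) = trl (γ.map (Int.cast : ℤ → ℚ)) (fun r => ((uZ r : ℤ) : ℚ)) p at h1
    rw [h1, trl_apply, trl_apply, Finset.mul_sum]
    refine Finset.sum_congr rfl fun r _ => ?_
    rw [huZ]
    ring
  refine ⟨trl γ uZ, fun p => ?_, ?_⟩
  · have h1 := hbd γ hγ p
    rw [← congrFun (hcast γ) p] at h1
    have h2 : ‖((trl (γ.map (Int.cast : ℤ → ℚ)) u p : ℚ) : ℂ)‖ = |((trl (γ.map (Int.cast : ℤ → ℚ)) u p : ℚ) : ℝ)| := by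
      rw [← Complex.ofReal_ratCast, Complex.norm_real, Real.norm_eq_abs]
    rw [h2] at h1
    have h3 : |((trl γ uZ p : ℤ) : ℝ)| ≤ K := by
      have h4 : ((trl γ uZ p : ℤ) : ℝ) = N * ((trl (γ.map (Int.cast : ℤ → ℚ)) u p : ℚ) : ℝ) := by
        have := hn p
        exact_mod_cast congrArg (Rat.cast : ℚ → ℝ) this
      rw [h4, abs_mul, Nat.abs_cast]
      exact (mul_le_mul_of_nonneg_left h1 (Nat.cast_nonneg _)).trans hK
    rw [abs_le] at h3
    constructor
    · have := h3.1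
      exact_mod_cast this
    · have := h3.2
      exact_mod_cast this
  · funext p
    change ((trl γ uZ p : ℤ) : ℚ) / N = _
    rw [hn p]
    field_simp

end Q68.GH
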