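import Pool.Agent.Q207.GH.Stm

/-! Lemma job GH4 for helper207: transfer of the solvability of the linear system. -/

set_option autoImplicit false
set_option linter.unusedSectionVars false

open Matrix Finset

namespace Q68.GH

open Q207.HG (Dt Grd)
open Q207.GH (La Le)

section dt

variable {K : Type} [Fintype K] [DecidableEq K]

/-- a non-zero minor gives linear independence -/
lemma li_of_minor {r : ℕ} {A : Fin r → K → ℂ} {p : Fin r → K} (h : Dt A p ≠ 0) : LinearIndependent ℂ A := by
  have h1 : IsUnit (Matrix.of fun s l => A s (p l)) := by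
    rw [Matrix.isUnit_iff_isUnit_det]
    exact isUnit_iff_ne_zero.mpr h
  have h2 : LinearIndependent ℂ fun s => (Matrix.of fun s l => A s (p l)).row s :=
    Matrix.linearIndependent_rows_iff_isUnit.mpr h1
  have h3 : (fun s => (Matrix.of fun s l => A s (p l)).row s) = (LinearMap.funLeft ℂ ℂ p) ∘ A := by
    funext s l
    rfl
  rw [h3] at h2
  exact LinearIndependent.of_comp _ h2

end dt

section sol

variable {I : Type} [Fintype I] [DecidableEq I]

/-- the linear map to the vectors of the linear system -/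
noncomputable def vl (lev : I → ℤ) (Z : Matrix I I ℂ) :
    Matrix I I ℂ →ₗ[ℂ] ({x : I × I // lev x.2 ≤ lev x.1} → ℂ) where
  toFun T := Q207.GH.vec lev (Z * T * Z⁻¹)
  map_add' T T' := by
    funext x
    simp only [Q207.GH.vec, Matrix.mul_add, Matrix.add_mul, Matrix.add_apply, Pi.add_apply]
  map_smul' c T := by
    funext x
    simp only [Q207.GH.vec, Matrix.mul_smul, Matrix.smul_mul, Matrix.smul_apply, Pi.smul_apply, RingHom.id_apply]

lemma grd_iff (lev : I → ℤ) (Z T : Matrix I I ℂ) : Grd lev (Z * T * Z⁻¹) ↔ vl lev Z T = Q207.GH.vec lev (La lev) := by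
  constructor
  · intro h
    funext x
    change (Z * T * Z⁻¹) x.1.1 x.1.2 = La lev x.1.1 x.1.2
    rw [h _ _ x.2, La, Matrix.diagonal_apply]
  · intro h a b hab
    have := congrFun h ⟨(a, b), hab⟩
    change (Z * T * Z⁻¹) a b = La lev a b at this
    rw [this, La, Matrix.diagonal_apply]

theorem solv : Q207.GH.S_Solv := by
  intro I _ _ lev Z Z' hZ hZ' hle hle' 𝔪 ⟨T, hT, hG⟩
  rw [grd_iff] at hG
  -- the images of the rational matrices
  set ι : Matrix I I ℚ → Matrix I I ℂ := fun X => X.map (algebraMap ℚ ℂ) with hι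
  have h1 : Q207.GH.vec lev (La lev) ∈ Submodule.span ℂ ((fun X => vl lev Z (ι X)) '' (𝔪 : Set (Matrix I I ℚ))) := by
    rw [← hG]
    have := Submodule.mem_map_of_mem (f := vl lev Z) hT
    rw [Submodule.map_span, ← Set.image_comp] at this
    exact this
  obtain ⟨b, hb1, hb2, hb3⟩ := exists_linearIndependent ℂ ((fun X => vl lev Z (ι X)) '' (𝔪 : Set (Matrix I I ℚ)))
  rw [← hb2] at h1
  have hfin : b.Finite := hb3.setFinite
  have : Fintype b := hfin.fintype
  set s := Fintype.card b with hs
  let e : Fin s ≃ b := (Fintype.equivFin b).symm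
  choose X hX using fun u : Fin s => hb1 (e u).2
  have hli : LinearIndependent ℂ fun u : Fin s => vl lev Z (ι (X u)) := by
    have : (fun u : Fin s => vl lev Z (ι (X u))) = (fun x : b => (x : _ → ℂ)) ∘ e := by
      funext u
      exact (hX u).2
    rw [this]
    exact hb3.comp _ e.injective
  have hsp : Submodule.span ℂ (Set.range fun u : Fin s => vl lev Z (ι (X u))) = Submodule.span ℂ b := by
    congr 1
    ext y
    constructor
    · rintro ⟨u, rfl⟩
      have : (fun X => vl lev Z (ι X)) (X u) = (e u : _ → ℂ) := (hX u).2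
      change (fun X => vl lev Z (ι X)) (X u) ∈ b
      rw [this]
      exact (e u).2
    · intro hy
      refine ⟨e.symm ⟨y, hy⟩, ?_⟩
      have : (fun X => vl lev Z (ι X)) (X (e.symm ⟨y, hy⟩)) = (e (e.symm ⟨y, hy⟩) : _ → ℂ) := (hX _).2
      rw [Equiv.apply_symm_apply] at this
      exact this
  rw [← hsp] at h1
  have hscard : s ≤ Fintype.card I ^ 2 := by
    have h := hli.fintype_card_le_finrank
    rw [Fintype.card_fin, Module.finrank_fintype_fun_eq_card] at h
    refine h.trans ((Fintype.card_subtype_le _).trans ?_)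
    rw [Fintype.card_prod, sq]
  -- the minors
  obtain ⟨p, hp⟩ := Pool.Agent.Q198.HG.exists_minor _ hli
  have hp' : Dt (fun u => Q207.GH.vec lev (Z' * (X u).map (algebraMap ℚ ℂ) * Z'⁻¹)) p ≠ 0 := by
    intro h0
    exact hp ((hle' s X hscard).1 p h0)
  have hli' : LinearIndependent ℂ fun u : Fin s => vl lev Z' (ι (X u)) := li_of_minor hp'
  have hnot : ¬ LinearIndependent ℂ (Fin.snoc (fun u : Fin s => vl lev Z' (ι (X u))) (Q207.GH.vec lev (La lev)) :
      Fin (s + 1) → _ → ℂ) := by
    intro hl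
    obtain ⟨q, hq⟩ := Pool.Agent.Q198.HG.exists_minor _ hl
    have hq2 : Dt (Fin.snoc (fun u => Q207.GH.vec lev (Z * (X u).map (algebraMap ℚ ℂ) * Z⁻¹)) (Q207.GH.vec lev (La lev)) :
        Fin (s + 1) → _ → ℂ) q ≠ 0 := fun h0 => hq ((hle s X hscard).2 q h0)
    have h3 := li_of_minor hq2
    rw [linearIndependent_finSnoc] at h3
    exact h3.2 h1
  rw [linearIndependent_finSnoc] at hnot
  have h4 : Q207.GH.vec lev (La lev) ∈ Submodule.span ℂ (Set.range fun u : Fin s => vl lev Z' (ι (X u))) := by
    by_contra hc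
    exact hnot ⟨hli', hc⟩
  rw [Submodule.mem_span_range_iff_exists_fun] at h4
  obtain ⟨c, hc⟩ := h4
  refine ⟨∑ u, c u • ι (X u), Submodule.sum_mem _ fun u _ => Submodule.smul_mem _ _
    (Submodule.subset_span ⟨X u, (hX u).1, rfl⟩), ?_⟩
  rw [grd_iff, ← hc, map_sum]
  simp only [map_smul]

end sol

end Q68.GH
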