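import Pool.Agent.Q207.GH.Stm

/-! Tensors: helper lemmas for the jobs GH1, GH2, GH3 of helper207. -/

set_option autoImplicit false
set_option linter.unusedSectionVars false

open Matrix Finset

namespace Q68.GH

open Q207.HT (lieA)
open Q207.GH (trl Pol)

section gen

variable {R I κ : Type} [CommRing R] [Fintype I] [DecidableEq I] [Fintype κ] [DecidableEq κ]

lemma trl_apply (g : Matrix I I R) (u : (κ → I) → R) (p : κ → I) :
    trl g u p = ∑ y : κ → I, (∏ l, g (p l) (y l)) * u y := rfl

/-- composition -/
lemma trl_mul (g h : Matrix I I R) (u : (κ → I) → R) : trl g (trl h u) = trl (g * h) u := by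
  funext p
  simp only [trl_apply, Finset.mul_sum]
  rw [Finset.sum_comm]
  refine Finset.sum_congr rfl fun z _ => ?_
  have h1 : ∏ l, (g * h) (p l) (z l) = ∑ y : κ → I, ∏ l, (g (p l) (y l) * h (y l) (z l)) := by
    simp only [Matrix.mul_apply]
    rw [Finset.prod_univ_sum]
    simp only [Fintype.piFinset_univ]
  rw [h1, Finset.sum_mul]
  refine Finset.sum_congr rfl fun y _ => ?_
  rw [Finset.prod_mul_distrib]
  ring

lemma trl_diag (d : I → R) (u : (κ → I) → R) (p : κ → I) :
    trl (Matrix.diagonal d) u p = (∏ l, d (p l)) * u p := by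
  rw [trl_apply, Finset.sum_eq_single p]
  · simp
  · intro y _ hy
    obtain ⟨l, hl⟩ := Function.ne_iff.mp hy
    rw [Finset.prod_eq_zero (Finset.mem_univ l), zero_mul]
    exact Matrix.diagonal_apply_ne _ (Ne.symm hl)
  · intro h
    exact absurd (Finset.mem_univ _) h

lemma trl_one (u : (κ → I) → R) : trl (1 : Matrix I I R) u = u := by
  funext p
  rw [← Matrix.diagonal_one, trl_diag]
  simp

/-- the adjoint -/
lemma trl_adj (g : Matrix I I R) (u v : (κ → I) → R) :
    ∑ p, trl g u p * v p = ∑ p, u p * trl gᵀ v p := by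
  simp only [trl_apply, Finset.sum_mul, Finset.mul_sum]
  rw [Finset.sum_comm]
  refine Finset.sum_congr rfl fun y _ => Finset.sum_congr rfl fun p _ => ?_
  simp only [Matrix.transpose_apply]
  ring

end gen

variable {I κ : Type} [Fintype I] [DecidableEq I] [Fintype κ] [DecidableEq κ]

lemma star_trl (g : Matrix I I ℂ) (u : (κ → I) → ℂ) : star (trl g u) = trl (gᴴ)ᵀ (star u) := by
  funext p
  simp only [Pi.star_apply, trl_apply, star_sum, star_mul', star_prod, Matrix.transpose_apply,
    Matrix.conjTranspose_apply]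

lemma lieA_diag (d : I → ℂ) (u : (κ → I) → ℂ) (p : κ → I) :
    lieA (Matrix.diagonal d) u p = (∑ l, d (p l)) * u p := by
  rw [Q207.HT.lieA_apply, Finset.sum_mul]
  refine Finset.sum_congr rfl fun l _ => ?_
  rw [Finset.sum_eq_single (p l)]
  · rw [Matrix.diagonal_apply_eq, Function.update_eq_self]
  · intro y _ hy
    rw [Matrix.diagonal_apply_ne _ (Ne.symm hy), zero_mul]
  · intro h
    exact absurd (Finset.mem_univ _) h

/-- transport, first form: `Φ g = g Ψ` -/
lemma lieA_trl (g Φ Ψ : Matrix I I ℂ) (h : Φ * g = g * Ψ) (u : (κ → I) → ℂ) :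
    lieA Φ (trl g u) = trl g (lieA Ψ u) := by
  funext p
  rw [Q207.HT.lieA_apply, trl_apply]
  have e1 : ∀ l : κ, ∑ y, Φ (p l) y * trl g u (Function.update p l y) =
      ∑ z : κ → I, ((∏ m ∈ univ.erase l, g (p m) (z m)) * (g * Ψ) (p l) (z l)) * u z := by
    intro l
    simp only [trl_apply, Finset.mul_sum]
    rw [Finset.sum_comm]
    refine Finset.sum_congr rfl fun z _ => ?_
    have e2 : ∀ y, ∏ m, g (Function.update p l y m) (z m) =
        g y (z l) * ∏ m ∈ univ.erase l, g (p m) (z m) := by
      intro y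
      rw [← Finset.mul_prod_erase univ _ (Finset.mem_univ l)]
      congr 1
      · rw [Function.update_self]
      · refine Finset.prod_congr rfl fun m hm => ?_
        rw [Function.update_of_ne (Finset.ne_of_mem_erase hm)]
    simp only [e2]
    rw [← h, Matrix.mul_apply, Finset.mul_sum, Finset.sum_mul]
    refine Finset.sum_congr rfl fun y _ => ?_
    ring
  simp only [e1]
  have e3 : ∀ l : κ, ∑ z : κ → I, ((∏ m ∈ univ.erase l, g (p m) (z m)) * (g * Ψ) (p l) (z l)) * u z =
      ∑ z : κ → I, (∏ m, g (p m) (z m)) * ∑ y, Ψ (z l) y * u (Function.update z l y) := by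
    intro l
    simp only [Matrix.mul_apply, Finset.mul_sum, Finset.sum_mul]
    -- both are sums over `(z, y)`; exchange `z l` and `y`
    rw [← Fintype.sum_prod_type', ← Fintype.sum_prod_type']
    refine Fintype.sum_equiv ⟨fun x => (Function.update x.1 l x.2, x.1 l),
      fun x => (Function.update x.1 l x.2, x.1 l), ?_, ?_⟩ _ _ ?_
    · intro x
      ext1
      · simp
      · simp
    · intro x
      ext1
      · simp
      · simp
    · rintro ⟨z, y⟩
      simp only [Equiv.coe_fn_mk, Function.update_self, Function.update_idem, Function.update_eq_self]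
      rw [← Finset.mul_prod_erase univ (fun m => g (p m) (Function.update z l y m)) (Finset.mem_univ l),
        Function.update_self]
      have e4 : ∏ m ∈ univ.erase l, g (p m) (Function.update z l y m) =
          ∏ m ∈ univ.erase l, g (p m) (z m) :=
        Finset.prod_congr rfl fun m hm => by rw [Function.update_of_ne (Finset.ne_of_mem_erase hm)]
      rw [e4]
      ring
  simp only [e3]
  rw [Finset.sum_comm]
  refine Finset.sum_congr rfl fun z _ => ?_
  rw [Q207.HT.lieA_apply, Finset.mul_sum]

theorem cnj : Q207.GH.S_Cnj := by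
  intro I _ _ g Φ hg q u
  refine lieA_trl g Φ _ ?_ u
  rw [Matrix.mul_assoc, ← Matrix.mul_assoc, ← Matrix.mul_assoc, Matrix.mul_nonsing_inv _ hg,
    Matrix.one_mul]

end Q68.GH
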